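import Pool.Agent.U857.GS.QuadEng

/-!
# One quadratic relation between Hecke eigenvalues forces the Ramanujan conjecture at all unramified primes

Let `Π_0 = 1` (trivial representation of `GL_1`) and `Π_1, …, Π_r` be selfdual automorphic representations of
`GL_{n_i}` over `ℚ`, unramified outside the finite set `S`, which are isobaric sums of unitary cuspidal
representations (for instance the lifts of globally generic cuspidal representations of classical groups), with Satake
parameters `α_{i,p,k}`, `k = 1, …, n_i`, and Hecke eigenvalues `λ_i(p) = ∑_k α_{i,p,k}`.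

**Theorem.** Let `q(x) = ∑ c_ij x_i x_j` be a real quadratic form in `x_0, …, x_r` such that the quadric `q = 0` has
only boundedly many real points in the affine space `x_0 = 1` (that is, they form a bounded set; for instance an
ellipsoid `x_1² + … + x_r² = c`, or finitely many points). Suppose that for all but finitely many `p` the Satake
parameters are bounded (by any constant `ρ`) and the Hecke eigenvalues satisfy the one relation
`q(1, λ_1(p), …, λ_r(p)) = 0`. Then

* at **every** prime `p ∉ S` **all** the Satake parameters of all the `Π_i` are roots of unity; in particular all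
  the `Π_i` are tempered at all unramified primes, the exceptional ones included;
* if the components at infinity are principal series representations, with the parameters `|·|^{t_{i,k}} sgn^{ε_{i,k}}`,
  then all `t_{i,k} = 0`: tempered, and of Galois type.

Only the Rankin-Selberg L-functions `L(s, Π_i × Π_j)` are used (structure `RankinSelberg`: meromorphic continuation of
order at most `3/2` and functional equation; Jacquet, Piatetski-Shapiro, Shalika, Moeglin, Waldspurger), so the result
is unconditional. For `Π_i` among the symmetric powers `Sym^m π_j`, `m ≤ 4`, of forms `π_j` on `PGL_2` the relation may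
be any polynomial relation `∑_{j,k} P_{jk}(λ_{π_j}(p), λ_{π_k}(p)) = 0` with `P_{jk}` of degree at most four in each
variable, for instance `∑_j λ_{π_j}(p)^8 = c`, and the parameters are bounded because the `λ_{π_j}(p)` are.

Idea. By `Pool.Agent.N845.SP.rel_all` (orders in the functional equations) the relation passes to all powers of the
Satake parameters at all `p ∉ S`, and to infinity. Power sums being independent, the quadratic form then vanishes on all
the points `x_i = ∑_k φ(α_{i,p,k})`, `φ` any character of the group generated by the parameters. If one of the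
parameters is not a root of unity, this group has a nonzero homomorphism to `ℤ`, hence a one-parameter group of positive
real characters, and these give unbounded real points of the quadric.
-/

set_option autoImplicit false

namespace Pool.Agent.Results.MP_08cfa9_nt.QuadricRelation

open Filter Topology Complex

/-- Product of inverse gamma factors `1 / Γ_ℝ(s + μ_j)`. -/
noncomputable def invGamma (μ : List ℂ) (s : ℂ) : ℂ := (μ.map fun m => (Gammaℝ (s + m))⁻¹).prod

/-- Finite product of inverse Euler factors `1 - b p^{-s}`. -/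
noncomputable def finEuler (l : List (ℕ × ℂ)) (s : ℂ) : ℂ :=
  (l.map fun x => 1 - x.2 * (x.1 : ℂ) ^ (-s)).prod

/-- What is used of the Rankin-Selberg L-function: `L_S(s, Π × Π') = N/D` for `Re s > 1`, with `N` and `D` entire of
order at most `3/2`, and the functional equation: with
`Λ(s) = q^s · (invGamma μ s)⁻¹ · finEuler l' s / finEuler l s · N s / D s` it says `Λ(s) = ε Λ(1 - s)`. -/
structure RankinSelberg {m n : ℕ} (S : Finset ℕ) (α : ℕ → Fin m → ℂ) (β : ℕ → Fin n → ℂ) (μ : List ℂ)
    (N D : ℂ → ℂ) : Prop where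
  entire_N : Differentiable ℂ N
  entire_D : Differentiable ℂ D
  order : ∃ C : ℝ, ∀ s, ‖N s‖ ≤ Real.exp (C * (1 + ‖s‖) ^ (3 / 2 : ℝ)) ∧
    ‖D s‖ ≤ Real.exp (C * (1 + ‖s‖) ^ (3 / 2 : ℝ))
  ne_zero : ∀ s : ℂ, 1 < s.re → D s ≠ 0
  euler : ∀ s : ℂ, 1 < s.re → Tendsto (fun X : ℕ =>
    ∏ p ∈ (Finset.range X).filter (fun p => p.Prime ∧ p ∉ S),
      ∏ k, ∏ l, (1 - α p k * β p l * (p : ℂ) ^ (-s))⁻¹) atTop (𝓝 (N s / D s))
  functional : ∃ (l l' : List (ℕ × ℂ)) (q : ℝ) (ε : ℂ), 0 < q ∧ ε ≠ 0 ∧
    (∀ x ∈ l, x.1.Prime ∧ x.1 ∈ S) ∧ (∀ x ∈ l', x.1.Prime ∧ x.1 ∈ S) ∧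
    ∀ s, (q : ℂ) ^ s * invGamma μ (1 - s) * finEuler l (1 - s) * finEuler l' s * (N s * D (1 - s)) =
      ε * (q : ℂ) ^ (1 - s) * invGamma μ s * finEuler l s * finEuler l' (1 - s) * (N (1 - s) * D s)

/-- **One quadratic relation forces Ramanujan at all unramified primes and at infinity.** `Π_0` is the trivial
representation of `GL_1`; `μ i j` are the shifts in the gamma factor of `L(s, Π_i × Π_j)`. -/
theorem result {r : ℕ} {n : Fin (r + 1) → ℕ} {S T : Finset ℕ} (α : ∀ i : Fin (r + 1), ℕ → Fin (n i) → ℂ)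
    (h0 : n 0 = 1) (hα0 : ∀ p : ℕ, ∀ k, α 0 p k = 1)
    (hne : ∀ i, ∀ p : ℕ, p.Prime → p ∉ S → ∀ k, α i p k ≠ 0)
    (hsd : ∀ i, ∀ p : ℕ, p.Prime → p ∉ S → ∃ σ : Equiv.Perm (Fin (n i)), ∀ k, α i p (σ k) = (α i p k)⁻¹)
    (μ : Fin (r + 1) → Fin (r + 1) → List ℂ)
    (hRS : ∀ i j, ∃ N D : ℂ → ℂ, RankinSelberg S (α i) (α j) (μ i j) N D)
    (ρ : ℝ) (hbd : ∀ i, ∀ p : ℕ, p.Prime → p ∉ T → ∀ k, ‖α i p k‖ ≤ ρ)
    (c : Fin (r + 1) → Fin (r + 1) → ℝ) (C : ℝ)
    (hC : ∀ x : Fin (r + 1) → ℝ, x 0 = 1 → ∑ i, ∑ j, c i j * (x i * x j) = 0 → ∀ i, |x i| ≤ C)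
    (hrel : ∀ p : ℕ, p.Prime → p ∉ T → ∑ i, ∑ j, (c i j : ℂ) * ((∑ k, α i p k) * ∑ l, α j p l) = 0) :
    (∀ i, ∀ p : ℕ, p.Prime → p ∉ S → ∀ k, ∃ m : ℕ, 0 < m ∧ α i p k ^ m = 1) ∧
    ∀ (t : ∀ i, Fin (n i) → ℂ) (ε : ∀ i, Fin (n i) → ℕ), (∀ k, t 0 k = 0) →
      (∀ i, ∃ σ : Equiv.Perm (Fin (n i)), ∀ k, t i (σ k) = -t i k ∧ ε i (σ k) % 2 = ε i k % 2) →
      (∀ i j, ((μ i j : List ℂ) : Multiset ℂ) =
        (Finset.univ : Finset (Fin (n i) × Fin (n j))).val.map fun q =>
          t i q.1 + t j q.2 + (((ε i q.1 + ε j q.2) % 2 : ℕ) : ℂ)) →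
      ∀ i k, t i k = 0 :=
  Pool.Agent.U857.GS.quad_main α c h0 hα0 hne hsd μ
    (fun i j => by
      obtain ⟨N, D, h⟩ := hRS i j
      exact ⟨N, D, h.entire_N, h.entire_D, h.order, h.ne_zero, h.euler, h.functional⟩) hbd hC hrel

end Pool.Agent.Results.MP_08cfa9_nt.QuadricRelation
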