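import Pool.Agent.U985.UI.ManyI

/-!
# Generic cuspidal representations of quasi-split classical groups: early places with the Ramanujan bound

Let `G` be a quasi-split classical group over a number field (`SO_{2m+1}`, `Sp_{2m}`, `SO_{2m}` or a unitary group) and
let `π` be a unitary globally generic cuspidal automorphic representation of `G`. Its functorial lift (Cogdell, Kim,
Piatetski-Shapiro, Shahidi; Kim, Krishnamurthy; Cogdell, Piatetski-Shapiro, Shahidi; Arthur, Mok) to `GL_n(A_K)` (for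
a unitary group, `K` is the quadratic extension) is an **isobaric sum**

  `Π = Π_1 ⊞ … ⊞ Π_d`, `Π_i` cuspidal on `GL_{m_i}`, `m_1 + … + m_d = n`, pairwise different, unitary and self-dual
  (conjugate self-dual for unitary groups),

in general **not cuspidal**: `d` may be anything from `1` to `n`. Let `S` be the set of the finite places at which `Π_v`
is not a twist, by one unitary character, of an unramified representation, `α_{j,v}`, `j = 1, …, n`, `v ∉ S`, the Satake
parameters (of the unramified twist), `λ_v = α_{1,v} + … + α_{n,v}`, and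

  `C = ∏_{i,j} q_{ij} ∏_l (1 + |κ_{ijl}|)`

the analytic conductor of `L(s, Π × Π~) = ∏_{i,j} L(s, Π_i × Π_j~)`: `q_{ij}` and `Γ_ℝ(s + κ_{ijl})` are the conductor and
the Gamma factors of `L(s, Π_i × Π_j~)`. The Ramanujan conjecture implies `|λ_v| ≤ n` for all `v ∉ S`. We show, for
representations with **arbitrary ramification**, infinity type and number `d` of constituents, over any number field:

1. (mean square bound, uniform in `π`) for every `ε > 0` there is `A`, depending only on `K`, `n`, `N₀`, `ε`, such that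

     `∑_{v ∉ S} |λ_v|² (log Nv / Nv) e^{-(log Nv)²/(2 s²)} ≤ d √(π/2) s + (1/4 + ε) log C + A`   for all `s ≥ 1`

   (for fixed `Π` and `s → ∞` the left side is asymptotic to `d √(π/2) s`; the dependence on `Π` is the point);
2. (main theorem) let `M, x > 0` and `c > x / (4 (M² ∫_0^x e^{-t²/2} dt - d √(π/2)))`, the denominator being positive.
   There are `A, δ > 0`, depending only on `K`, `n`, `N₀`, `d`, `M`, `x`, `c`, such that for every such `π` and every
   `P ≥ A C^c` there are at least `P^δ` places `v ∉ S` with `Nv ≤ P` and `|λ_v| < M`;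
3. **the bound `|λ_v| < n` holds at at least `P^δ` places `v ∉ S`, `Nv ≤ P`, as soon as `P ≥ A C^{1/(4n(n-√d))}`**, for
   all `n ≥ 2` and all `1 ≤ d ≤ n`;
4. the bound `|λ_v| < M` holds at at least `P^δ` places as soon as `P ≥ A C^{1/(4M(M-√d))}`, for `M ≥ (16/9) √d`;
5. for **every** `M > √d` there are `c, A, δ > 0`, depending only on `K`, `n`, `N₀`, `d`, `M`, with this property for
   all `P ≥ A C^c`.

Known before: for a fixed **cuspidal** `Π` over `ℚ` non-uniform results (`SmallEigenvaluesAllPlaces`,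
`TemperedEveryScale` of this problem); for cuspidal `Π` over `ℚ` a prime power `p^k ≤ A C^{1+ε}` with
`|∑_j α_{j,p}^k| < 1` (`LeastSmallTrace`); for cuspidal `Π` over number fields (`d = 1`) 2.-4. are
`MP_8410ab_nt.EarlyTemperedPlaces`. For `d > 1` the pole of order `d` and the functions `L(s, Π_i × Π_j~)`, `i ≠ j`, come
in. The threshold `√d` in 5. is the natural limit of the method: the mean value of `|λ_v|²` is `d`.

What is used of `π` is listed in `GenericLift`: the properties of the `Π_i` and of the functions `L(s, Π_i × Π_j~)`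
(`Rep`, `RS` of `Pool.Agent.N846.DU.Stm`: unitarity and the bounds of Jacquet and Shalika outside `S`, absolute
convergence in `Re s > 1`, continuation with a simple pole at `s = 1` if `i = j` and none if `i ≠ j`, polynomial growth in
vertical strips, functional equation) and that the places of `S` divide the conductor of `L(s, Π × Π~)`: the conductor
exponent of `Π_v × Π~_v` is zero only if `Π_v` is a twist of an unramified representation. No bound towards the
conjecture is used beyond that of Jacquet and Shalika.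

The proof: a three lines (Poisson-Jensen) inequality for `(s - 1)^d L(s, Π × Π~)` between `Re s = -σ₁` and
`Re s = 1 + δ`, applied to finite differences and averaged over the heights with a Gaussian weight
(`Pool/Agent/U985/UI/{ThreeM,FormI}`), is compared with Mertens' theorem for prime ideals with the same weight. The size
of the factors on `Re s = -σ₁` and of `L(1 + σ₁, Π_i × Π_i~)` is from the library (`N846/DU/Left`, `U828/DU/Diag`).
-/

set_option autoImplicit false

namespace Pool.Agent.Results.MP_08cfa9_nt.RamanujanBoundClassical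

open NumberField IsDedekindDomain
open Pool.Agent.N846.DU

/-- A globally generic cuspidal representation of a quasi-split classical group whose lift to `GL_n(A_K)` is
`Π_1 ⊞ … ⊞ Π_d`, the `Π_i` cuspidal on `GL_{m_i}` and pairwise different: `S` is the set of the finite places at which the
lift is not a twist of an unramified representation by one character, `α v j` are the Satake parameters at `v ∉ S`, those
of `Π_i` being the `α v (e (i, l))`, `l = 1, …, m_i`, and `C` is the analytic conductor of `L(s, Π × Π~)`. There are at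
most `N₀` Gamma factors for every pair. -/
structure GenericLift {K : Type} [Field K] [NumberField K] (n d N₀ : ℕ) (S : Finset (HeightOneSpectrum (𝓞 K)))
    (α : HeightOneSpectrum (𝓞 K) → Fin n → ℂ) (C : ℝ) : Prop where
  lift : ∃ (m : Fin d → ℕ) (e : (Σ i, Fin (m i)) ≃ Fin n) (N : Fin d → Fin d → ℕ) (u : Fin d → VX K → ℂ)
    (q : Fin d → Fin d → ℝ) (κ : ∀ i j, Fin (N i j) → ℂ), (∀ i, 1 ≤ m i) ∧ (∀ i j, N i j ≤ N₀) ∧
    -- the cuspidal representation `Π_i`, `u i` are the coefficients of its `L`-functions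
    (∀ i, Rep (m i) S (fun v l => α v (e ⟨i, l⟩)) (u i)) ∧
    -- `L(s, Π_i × Π_j~)`, with a simple pole at `s = 1` for `i = j` and none otherwise
    (∀ i j, RS (u i) (u j) (q i j) (κ i j) (if i = j then 1 else 0)) ∧
    -- the places of `S` divide the conductor
    ∏ v ∈ S, Nv v ≤ ∏ i, ∏ j, q i j ∧
    C = ∏ i, ∏ j, (q i j * ∏ l, (1 + ‖κ i j l‖))

theorem sum_sigma' {n d : ℕ} {m : Fin d → ℕ} (e : (Σ i, Fin (m i)) ≃ Fin n) (a : Fin n → ℂ) :
    ∑ i, ∑ l, a (e ⟨i, l⟩) = ∑ j, a j := by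
  rw [← Equiv.sum_comp e a, Fintype.sum_sigma]

theorem m_le {n d : ℕ} {m : Fin d → ℕ} (e : (Σ i, Fin (m i)) ≃ Fin n) (i : Fin d) : m i ≤ n := by
  have h := Fintype.card_congr e
  rw [Fintype.card_sigma, Fintype.card_fin] at h
  simp only [Fintype.card_fin] at h
  rw [← h]
  exact Finset.single_le_sum (f := m) (fun _ _ => Nat.zero_le _) (Finset.mem_univ i)

theorem main {K : Type} [Field K] [NumberField K] (n d N₀ : ℕ) (hd : 1 ≤ d) {M c : ℝ} (hM : 0 < M)
    (h : U985.UI.AdmD d M c) :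
    ∃ A δ : ℝ, 0 < A ∧ 0 < δ ∧ ∀ (S : Finset (HeightOneSpectrum (𝓞 K))) (α : HeightOneSpectrum (𝓞 K) → Fin n → ℂ)
      (C : ℝ), GenericLift n d N₀ S α C → ∀ P : ℝ, A * C ^ c ≤ P →
        ∃ T : Finset (HeightOneSpectrum (𝓞 K)), P ^ δ ≤ (T.card : ℝ) ∧
          ∀ v ∈ T, Nv v ≤ P ∧ v ∉ S ∧ ‖∑ j, α v j‖ < M := by
  obtain ⟨x, hx, hD, hc⟩ := h
  obtain ⟨A, δ, hA, hδ, h⟩ := U985.UI.manyI K d n N₀ hd hM hx hD hc
  refine ⟨A, δ, hA, hδ, fun S α C hG P hP => ?_⟩
  obtain ⟨m, e, N, u, q, κ, _, hN, hrep, hrs, hS, hC⟩ := hG.lift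
  rw [hC] at hP
  obtain ⟨T, hT1, hT2⟩ := h m N (m_le e) hN S (fun i v l => α v (e ⟨i, l⟩)) u q κ hrep hrs hS P hP
  refine ⟨T, hT1, fun v hv => ?_⟩
  have h1 := hT2 v hv
  rw [sum_sigma' e (α v)] at h1
  exact h1

/-- **Generic representations of classical groups: early places with the Ramanujan bound.** -/
theorem result (K : Type) [Field K] [NumberField K] :
    -- 1. the mean square bound
    (∀ (n d N₀ : ℕ) (ε : ℝ), 1 ≤ d → 0 < ε → ∃ A : ℝ,
      ∀ (S : Finset (HeightOneSpectrum (𝓞 K))) (α : HeightOneSpectrum (𝓞 K) → Fin n → ℂ) (C : ℝ),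
      GenericLift n d N₀ S α C → ∀ s : ℝ, 1 ≤ s → ∀ T : Finset (HeightOneSpectrum (𝓞 K)), (∀ v ∈ T, v ∉ S) →
        ∑ v ∈ T, ‖∑ j, α v j‖ ^ 2 * (Real.log (Nv v) / Nv v) * Real.exp (-(Real.log (Nv v)) ^ 2 / (2 * s ^ 2)) ≤
          d * √(Real.pi / 2) * s + (1 / 4 + ε) * Real.log C + A) ∧
    -- 2. the main theorem
    (∀ (n d N₀ : ℕ) (M x c : ℝ), 1 ≤ d → 0 < M → 0 < x →
      0 < M ^ 2 * (∫ t in (0 : ℝ)..x, Real.exp (-t ^ 2 / 2)) - d * √(Real.pi / 2) →
      x / (4 * (M ^ 2 * (∫ t in (0 : ℝ)..x, Real.exp (-t ^ 2 / 2)) - d * √(Real.pi / 2))) < c →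
      ∃ A δ : ℝ, 0 < A ∧ 0 < δ ∧
      ∀ (S : Finset (HeightOneSpectrum (𝓞 K))) (α : HeightOneSpectrum (𝓞 K) → Fin n → ℂ) (C : ℝ),
      GenericLift n d N₀ S α C → ∀ P : ℝ, A * C ^ c ≤ P →
        ∃ T : Finset (HeightOneSpectrum (𝓞 K)), P ^ δ ≤ (T.card : ℝ) ∧
          ∀ v ∈ T, Nv v ≤ P ∧ v ∉ S ∧ ‖∑ j, α v j‖ < M) ∧
    -- 3. the Ramanujan bound for the Hecke eigenvalue, all `n ≥ 2` and all `d`
    (∀ n N₀ : ℕ, 2 ≤ n → ∃ A δ : ℝ, 0 < A ∧ 0 < δ ∧ ∀ (d : ℕ), 1 ≤ d →
      ∀ (S : Finset (HeightOneSpectrum (𝓞 K))) (α : HeightOneSpectrum (𝓞 K) → Fin n → ℂ) (C : ℝ),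
      GenericLift n d N₀ S α C → ∀ P : ℝ, A * C ^ (1 / (4 * (n : ℝ) * ((n : ℝ) - √(d : ℝ)))) ≤ P →
        ∃ T : Finset (HeightOneSpectrum (𝓞 K)), P ^ δ ≤ (T.card : ℝ) ∧
          ∀ v ∈ T, Nv v ≤ P ∧ v ∉ S ∧ ‖∑ j, α v j‖ < n) ∧
    -- 4. `M ≥ (16/9) √d`
    (∀ (n d N₀ : ℕ) (M : ℝ), 1 ≤ d → 16 / 9 * √(d : ℝ) ≤ M → ∃ A δ : ℝ, 0 < A ∧ 0 < δ ∧
      ∀ (S : Finset (HeightOneSpectrum (𝓞 K))) (α : HeightOneSpectrum (𝓞 K) → Fin n → ℂ) (C : ℝ),
      GenericLift n d N₀ S α C → ∀ P : ℝ, A * C ^ (1 / (4 * M * (M - √(d : ℝ)))) ≤ P →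
        ∃ T : Finset (HeightOneSpectrum (𝓞 K)), P ^ δ ≤ (T.card : ℝ) ∧
          ∀ v ∈ T, Nv v ≤ P ∧ v ∉ S ∧ ‖∑ j, α v j‖ < M) ∧
    -- 5. every `M > √d`
    (∀ (n d N₀ : ℕ) (M : ℝ), 1 ≤ d → √(d : ℝ) < M → ∃ c A δ : ℝ, 0 < c ∧ 0 < A ∧ 0 < δ ∧
      ∀ (S : Finset (HeightOneSpectrum (𝓞 K))) (α : HeightOneSpectrum (𝓞 K) → Fin n → ℂ) (C : ℝ),
      GenericLift n d N₀ S α C → ∀ P : ℝ, A * C ^ c ≤ P →
        ∃ T : Finset (HeightOneSpectrum (𝓞 K)), P ^ δ ≤ (T.card : ℝ) ∧
          ∀ v ∈ T, Nv v ≤ P ∧ v ∉ S ∧ ‖∑ j, α v j‖ < M) := by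
  refine ⟨?_, ?_, ?_, ?_, ?_⟩
  · intro n d N₀ ε hd hε
    obtain ⟨A, _, h⟩ := U985.UI.primeI K d n N₀ hd hε
    refine ⟨A, fun S α C hG s hs T hT => ?_⟩
    obtain ⟨m, e, N, u, q, κ, _, hN, hrep, hrs, hS, hC⟩ := hG.lift
    have h1 := h m N (m_le e) hN S (fun i v l => α v (e ⟨i, l⟩)) u q κ hrep hrs s hs T hT
    rw [hC]
    refine le_trans (le_of_eq ?_) (h1.trans (le_of_eq (by ring)))
    refine Finset.sum_congr rfl fun v _ => ?_
    rw [sum_sigma' e (α v)]
  · intro n d N₀ M x c hd hM hx hD hc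
    exact main n d N₀ hd hM ⟨x, hx, hD, hc⟩
  · intro n N₀ hn
    have hn0 : (0 : ℝ) < n := by exact_mod_cast (by omega : 0 < n)
    have h := fun d : Fin n => main (K := K) n (d.1 + 1) N₀ (by omega) hn0
      (U985.UI.admD_n (d := d.1 + 1) (by omega) (by omega) hn)
    choose A δ hA hδ h using h
    haveI : Nonempty (Fin n) := ⟨⟨0, by omega⟩⟩
    refine ⟨max 1 (∑ i, A i), Finset.univ.inf' Finset.univ_nonempty δ, lt_of_lt_of_le one_pos (le_max_left _ _), ?_,
      fun d hd S α C hG P hP => ?_⟩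
    · rw [Finset.lt_inf'_iff]
      exact fun i _ => hδ i
    · obtain ⟨m, e, N, u, q, κ, hm, hN, hrep, hrs, hS, hC⟩ := hG.lift
      have hdn : d ≤ n := by
        have h1 := Fintype.card_congr e
        rw [Fintype.card_sigma, Fintype.card_fin] at h1
        simp only [Fintype.card_fin] at h1
        have h2 : ∑ i : Fin d, 1 ≤ ∑ i, m i := Finset.sum_le_sum fun i _ => hm i
        rw [Finset.sum_const, Finset.card_univ, Fintype.card_fin, smul_eq_mul, mul_one] at h2
        omega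
      have hC1 : 1 ≤ C := by
        rw [hC]
        refine Finset.one_le_prod fun i _ => Finset.one_le_prod fun j _ =>
          one_le_mul_of_one_le_of_one_le (hrs i j).one_le (Finset.one_le_prod fun l _ => ?_)
        linarith [norm_nonneg (κ i j l)]
      have h0 : ((⟨d - 1, by omega⟩ : Fin n) : ℕ) + 1 = d := by
        simp only
        omega
      have h1 := h ⟨d - 1, by omega⟩
      rw [h0] at h1
      have hE : 0 ≤ 1 / (4 * (n : ℝ) * ((n : ℝ) - √(d : ℝ))) := by
        have hdn' : (d : ℝ) ≤ n := by exact_mod_cast hdn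
        have hn1 : (1 : ℝ) ≤ n := by exact_mod_cast (by omega : 1 ≤ n)
        have h3 : √(d : ℝ) ≤ n := by
          rw [Real.sqrt_le_left hn0.le]
          nlinarith
        have : 0 ≤ (n : ℝ) - √(d : ℝ) := by linarith
        positivity
      have hCE : 1 ≤ C ^ (1 / (4 * (n : ℝ) * ((n : ℝ) - √(d : ℝ)))) := Real.one_le_rpow hC1 hE
      have hAle : A ⟨d - 1, by omega⟩ ≤ max 1 (∑ i, A i) :=
        (Finset.single_le_sum (fun i _ => (hA i).le) (Finset.mem_univ _)).trans (le_max_right _ _)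
      have hP1 : 1 ≤ P := (one_le_mul_of_one_le_of_one_le (le_max_left _ _) hCE).trans hP
      obtain ⟨T, hT1, hT2⟩ := h1 S α C hG P ((mul_le_mul_of_nonneg_right hAle (by linarith)).trans hP)
      exact ⟨T, (Real.rpow_le_rpow_of_exponent_le hP1 (Finset.inf'_le _ (Finset.mem_univ _))).trans hT1, hT2⟩
  · intro n d N₀ M hd hM
    have hd0 : (0 : ℝ) < d := by exact_mod_cast hd
    have hs0 : 0 < √(d : ℝ) := Real.sqrt_pos.2 hd0
    exact main n d N₀ hd (by nlinarith) (U985.UI.admD_M hd hM)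
  · intro n d N₀ M hd hM
    have hd0 : (0 : ℝ) < d := by exact_mod_cast hd
    have hs0 : 0 < √(d : ℝ) := Real.sqrt_pos.2 hd0
    obtain ⟨c, hc, h1⟩ := U985.UI.admD_gt hd hM
    obtain ⟨A, δ, hA, hδ, h⟩ := main (K := K) n d N₀ hd (by linarith) h1
    exact ⟨c, A, δ, hc, hA, hδ, h⟩

end Pool.Agent.Results.MP_08cfa9_nt.RamanujanBoundClassical
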