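import Pool.Agent.U253.SPL.Fin

/-!
# Split groups: a small combination of characters forces temperedness

Let `G` be a split connected reductive group over `ℚ` with dual group `G^` and maximal torus `T^ ⊂ G^` of rank `r`,
`X^*(T^) = ℤ^r`. Let `π` be a unitary (globally generic) cuspidal automorphic representation of `G(𝔸)`, `S` a finite
set of primes which contains the ramified ones, and `x p ∈ (ℂˣ)^r = T^(ℂ)` the Satake parameter `A_p` for `p ∉ S`. Let
`ρ_j : G^ → GL_{n_j}`, `j ∈ J`, be finitely many representations, `W j` the multiset of the weights of `ρ_j`; the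
eigenvalues of `ρ_j(A_p)` are the numbers `x_p^μ`, `μ ∈ W j`. Assume that all `L_S(s, π, ρ_j)` have a meromorphic
continuation of finite order and the expected functional equation.

**Theorem.** Let `P = ∑_j c_j tr ρ_j`, `c_j` real, such that `c_j > 0` whenever a weight of `ρ_j` lies on the boundary of the
convex hull of all weights (for example `P = tr ρ_0 + ∑_{j ≠ 0} c_j tr ρ_j` with ANY real `c_j` if the highest
weights of the `ρ_j`, `j ≠ 0`, are in the interior of the hull of the weights of `ρ_0`, as in `tr Ad(A) - c`). Assume that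
`P(A_p)` is small: there is `g ≥ 0` with `∑_{p < X} g(p) log p = o(√X)` such that for every `p ∉ S` either the eigenvalues of all
`ρ_j(A_p)` are bounded by `B` and `|P(A_p)| ≤ g(p)`, or they are all bounded by `g(p)`. Then

* `P(1) = ∑_j c_j dim ρ_j = 0`;
* at EVERY `p ∉ S` one has `P(A_p^n) = 0` for all `n ≥ 1`, and some power `A_p^m`, `m ≥ 1`, acts in all `ρ_j` as one and
  the same scalar `z` with `|z| = 1`; in particular all eigenvalues of `ρ_j(A_p)` have absolute value `1`, so
  `π_p` is tempered if the `ρ_j` are faithful;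
* if `π_∞` is a principal series with exponents `ν`, all `μ·ν`, `μ ∈ W j`, `j ∈ J`, coincide and are purely imaginary.

So one nontempered place (finite or real), or one Satake parameter of infinite order modulo the centre, or `P(1) ≠ 0`, keeps
the Satake parameters away from the hypersurface `P = 0` for every such `P`: with bounded parameters
`∑_{p<X} |P(A_p)| log p ≥ c √X` for arbitrarily large `X`.

For `GL_n` and `ρ_j ∈ {1, std, std^∨, std ⊗ std, std^∨ ⊗ std^∨, std ⊗ std^∨}` all assumptions are theorems (Jacquet,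
Piatetski-Shapiro, Shalika; Mœglin, Waldspurger), and the generic lift carries this to the classical groups.

The idea: `GAP`: the real combination of logarithmic derivatives is split into a bounded part without first powers and
a part which converges absolutely for `Re s > 1/2` and is `o(1/δ)` at `1/2 + δ`; so all coefficients vanish and the
combination of the gamma factors is trivial. Then the multiplicities `∑_j c_j #{μ ∈ W j : x_p^μ = z}` vanish for every
`z`. If `x_p^{μ-μ'}` had infinite order, there would be a homomorphism from the group generated by the `x_{p,k}` to `ℤ` which is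
not trivial on it; at an extreme value of this homomorphism only positive `c_j` occur. The same argument
for the additive group of `ℂ` gives the result at infinity.
-/

set_option autoImplicit false

open Filter Topology Asymptotics

namespace Pool.Agent.Results.MP_08cfa9_nt.SplitGroups

/-- `∏_{m ∈ κ} Γ_ℝ(s + m)⁻¹`, `Γ_ℝ(s) = π^{-s/2} Γ(s/2)` -/
noncomputable def invGamma (κ : Multiset ℂ) (s : ℂ) : ℂ :=
  (κ.map fun m => (Complex.Gammaℝ (s + m))⁻¹).prod

/-- `∏_{(p, b) ∈ l} (1 - b p^{-s})` -/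
noncomputable def finEuler (l : List (ℕ × ℂ)) (s : ℂ) : ℂ :=
  (l.map fun x => 1 - x.2 * (x.1 : ℂ) ^ (-s)).prod

/-- the value `x^μ = ∏_k x_k^{μ_k}` of the weight `μ` at the element `x` of the torus -/
noncomputable def eigenvalue {r : ℕ} (x : Fin r → ℂ) (μ : Fin r → ℤ) : ℂ := ∏ k, x k ^ μ k

/-- the weights of the dual representation -/
def dual {r : ℕ} (W : Multiset (Fin r → ℤ)) : Multiset (Fin r → ℤ) := W.map fun μ => -μ

/-- the Euler factor `det(1 - ρ(A_p) p^{-s})⁻¹`, `W` the weights of `ρ`, `x p` the Satake parameter -/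
noncomputable def eulerFactor {r : ℕ} (W : Multiset (Fin r → ℤ)) (x : ℕ → Fin r → ℂ) (p : ℕ) (s : ℂ) : ℂ :=
  (W.map fun μ => (1 - eigenvalue (x p) μ * (p : ℂ) ^ (-s))⁻¹).prod

/-- the real combination `P(A_p^n) = ∑_j c_j tr ρ_j(A_p^n)` of the characters -/
noncomputable def trace {J : Type} [Fintype J] {r : ℕ} (W : J → Multiset (Fin r → ℤ)) (c : J → ℝ)
    (x : ℕ → Fin r → ℂ) (p n : ℕ) : ℂ :=
  ∑ j, (c j : ℂ) * ((W j).map fun μ => eigenvalue (x p) μ ^ n).sum

/-- the Euler product `∏_{p ∉ S} F p s` extends to the meromorphic function `N/D` on `ℂ` -/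
structure Continuation (S : Finset ℕ) (F : ℕ → ℂ → ℂ) (N D : ℂ → ℂ) : Prop where
  /-- `N` is entire -/
  entire_N : Differentiable ℂ N
  /-- `D` is entire -/
  entire_D : Differentiable ℂ D
  /-- `N` and `D` are of order at most `3/2` -/
  order : ∃ C : ℝ, ∀ s, ‖N s‖ ≤ Real.exp (C * (1 + ‖s‖) ^ (3 / 2 : ℝ)) ∧
    ‖D s‖ ≤ Real.exp (C * (1 + ‖s‖) ^ (3 / 2 : ℝ))
  /-- `D` has no zeros in `Re s > 1` -/
  ne_zero : ∀ s : ℂ, 1 < s.re → D s ≠ 0
  /-- the partial Euler products converge to `N/D` in `Re s > 1` -/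
  euler : ∀ s : ℂ, 1 < s.re → Tendsto (fun X : ℕ =>
    ∏ p ∈ (Finset.range X).filter (fun p => p.Prime ∧ p ∉ S), F p s) atTop (𝓝 (N s / D s))

/-- the functional equation between `N/D`, with the archimedean parameters `κ`, and the L-function `N'/D'` of the
dual representation, with the archimedean parameters `κ'`: with
`Λ(s) = q^s · (invGamma κ s · finEuler m s)⁻¹ · finEuler l' s · N s / D s` and
`Λ'(s) = q^s · (invGamma κ' s · finEuler l s)⁻¹ · finEuler m' s · N' s / D' s` it says `Λ(s) = ε Λ'(1 - s)` -/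
def FunctionalEquation (S : Finset ℕ) (κ κ' : Multiset ℂ) (N D N' D' : ℂ → ℂ) : Prop :=
  ∃ (l l' m m' : List (ℕ × ℂ)) (q : ℝ) (ε : ℂ), 0 < q ∧ ε ≠ 0 ∧
    (∀ x ∈ l, x.1.Prime ∧ x.1 ∈ S) ∧ (∀ x ∈ l', x.1.Prime ∧ x.1 ∈ S) ∧
    (∀ x ∈ m, x.1.Prime ∧ x.1 ∈ S) ∧ (∀ x ∈ m', x.1.Prime ∧ x.1 ∈ S) ∧
    ∀ s, (q : ℂ) ^ s * invGamma κ' (1 - s) * finEuler l (1 - s) * finEuler l' s * (N s * D' (1 - s)) =
      ε * (q : ℂ) ^ (1 - s) * invGamma κ s * finEuler m s * finEuler m' (1 - s) * (N' (1 - s) * D s)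

/-- the properties of `π` which are used; `W j` are the weights of `ρ_j`, `x p` is the Satake parameter at `p ∉ S`,
`κ j` and `κ' j` are the (arbitrary) archimedean parameters of `L(s, π, ρ_j)` and `L(s, π, ρ_j^∨)` -/
structure Automorphic {J : Type} {r : ℕ} (W : J → Multiset (Fin r → ℤ)) (S : Finset ℕ)
    (x : ℕ → Fin r → ℂ) (κ κ' : J → Multiset ℂ) : Prop where
  /-- `x p` lies in the torus -/
  torus : ∀ p : ℕ, p.Prime → p ∉ S → ∀ k, x p k ≠ 0
  /-- `π_p` is unitary: `ρ_j(A_p)` and its conjugate inverse have the same eigenvalues -/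
  unitary : ∀ p : ℕ, p.Prime → p ∉ S → ∀ j,
    ((W j).map fun μ => ((starRingEnd ℂ) (eigenvalue (x p) μ))⁻¹) = (W j).map (eigenvalue (x p))
  /-- the L-functions of the `ρ_j` and their duals continue and have the functional equation -/
  nice : ∃ N D N' D' : J → ℂ → ℂ, ∀ j, Continuation S (eulerFactor (W j) x) (N j) (D j) ∧
    Continuation S (eulerFactor (dual (W j)) x) (N' j) (D' j) ∧
    FunctionalEquation S (κ j) (κ' j) (N j) (D j) (N' j) (D' j)

/-- the pairing of a weight with the exponents of `π_∞` -/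
noncomputable def exponent {r : ℕ} (ν : Fin r → ℂ) (μ : Fin r → ℤ) : ℂ := ∑ k, (μ k : ℂ) * ν k

/-- the archimedean parameters of the representation with the weights `W` if `π_∞` is the principal series with the
characters `|·|^{ν_k} sgn^{ε_k}` -/
noncomputable def archimedean {r : ℕ} (ν : Fin r → ℂ) (ε : Fin r → ℤ) (W : Multiset (Fin r → ℤ)) :
    Multiset ℂ := W.map fun μ => exponent ν μ + (((∑ k, ε k * μ k) % 2 : ℤ) : ℂ)

/-- the coefficient `c j` is positive whenever some weight of `ρ_j` is extreme in some direction `a` (in which not all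
weights agree) -/
def PositiveOnFaces {J : Type} {r : ℕ} (W : J → Multiset (Fin r → ℤ)) (c : J → ℝ) : Prop :=
  ∀ a : Fin r → ℤ, (∃ i, ∃ j, ∃ μ ∈ W i, ∃ μ' ∈ W j, ∑ k, a k * μ k ≠ ∑ k, a k * μ' k) →
    ∀ j, ∀ μ ∈ W j, (∀ i, ∀ μ' ∈ W i, ∑ k, a k * μ' k ≤ ∑ k, a k * μ k) → 0 < c j

theorem eig_neg {r : ℕ} (x : Fin r → ℂ) (μ : Fin r → ℤ) : eigenvalue x (-μ) = (eigenvalue x μ)⁻¹ := by
  unfold eigenvalue
  rw [← Finset.prod_inv_distrib]
  exact Finset.prod_congr rfl fun k _ => by rw [Pi.neg_apply, zpow_neg]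

theorem coe_map {α β : Type*} (W : Multiset α) (f : α → β) :
    W.map f = ((W.toList.map f : List β) : Multiset β) := by
  rw [← Multiset.map_coe, Multiset.coe_toList]

/-- **If a real combination `P = ∑ c_j tr ρ_j`, with `c_j > 0` on the faces, is small on average at the Satake parameters
of `π`, then `π` is tempered at every place outside `S`, of finite order modulo the centre.** -/
theorem result {J : Type} [Fintype J] {r : ℕ} {W : J → Multiset (Fin r → ℤ)} {S : Finset ℕ}
    {x : ℕ → Fin r → ℂ} {κ κ' : J → Multiset ℂ} (hπ : Automorphic W S x κ κ') {c : J → ℝ}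
    (hc : PositiveOnFaces W c) {g : ℕ → ℝ} {B : ℝ} (hg : ∀ p, 0 ≤ g p)
    (hs : (fun X : ℕ => ∑ p ∈ (Finset.range X).filter (fun p => p.Prime ∧ p ∉ S),
      g p * Real.log p) =o[atTop] fun X : ℕ => √(X : ℝ))
    (h : ∀ p : ℕ, p.Prime → p ∉ S →
      ((∀ j, ∀ μ ∈ W j, ‖eigenvalue (x p) μ‖ ≤ B) ∧ ‖trace W c x p 1‖ ≤ g p) ∨
      ∀ j, ∀ μ ∈ W j, ‖eigenvalue (x p) μ‖ ≤ g p) :
    ∑ j, c j * (W j).card = 0 ∧
    (∀ p : ℕ, p.Prime → p ∉ S → (∀ n : ℕ, 1 ≤ n → trace W c x p n = 0) ∧
      ∃ m : ℕ, 0 < m ∧ ∃ z : ℂ, ‖z‖ = 1 ∧ ∀ j, ∀ μ ∈ W j, eigenvalue (x p) μ ^ m = z) ∧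
    ∀ (ν : Fin r → ℂ) (ε : Fin r → ℤ),
      (∀ j, κ j = archimedean ν ε (W j) ∧ κ' j = archimedean ν ε (dual (W j)) ∧
        ((W j).map fun μ => (starRingEnd ℂ) (exponent ν μ)) = (W j).map fun μ => -exponent ν μ) →
      ∃ a : ℂ, a.re = 0 ∧ ∀ j, ∀ μ ∈ W j, exponent ν μ = a := by
  obtain ⟨htor, hun, N, D, N', D', hND⟩ := hπ
  set L : J → List (Fin r → ℤ) := fun j => (W j).toList with hLdef
  have hmem : ∀ j μ, μ ∈ L j ↔ μ ∈ W j := fun j μ => Multiset.mem_toList
  have hfac : ∀ (j : J) (p : ℕ) (s : ℂ), eulerFactor (W j) x p s =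
      ∏ i ∈ Finset.range (L j).length, (1 - Pool.Agent.U253.SPL.mono (x p) ((L j).getD i 0) * (p : ℂ) ^ (-s))⁻¹ := by
    intro j p s
    rw [Pool.Agent.U253.SPL.prod_getD (L j) 0
      (fun μ => (1 - Pool.Agent.U253.SPL.mono (x p) μ * (p : ℂ) ^ (-s))⁻¹)]
    unfold eulerFactor
    rw [coe_map, Multiset.prod_coe]
    rfl
  have hfac' : ∀ (j : J) (p : ℕ) (s : ℂ), eulerFactor (dual (W j)) x p s =
      ∏ i ∈ Finset.range (L j).length,
        (1 - (Pool.Agent.U253.SPL.mono (x p) ((L j).getD i 0))⁻¹ * (p : ℂ) ^ (-s))⁻¹ := by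
    intro j p s
    rw [Pool.Agent.U253.SPL.prod_getD (L j) 0
      (fun μ => (1 - (Pool.Agent.U253.SPL.mono (x p) μ)⁻¹ * (p : ℂ) ^ (-s))⁻¹)]
    unfold eulerFactor dual
    rw [Multiset.map_map, coe_map, Multiset.prod_coe]
    congr 1
    refine List.map_congr_left fun μ _ => ?_
    rw [Function.comp_apply, eig_neg]
    rfl
  have hgi : ∀ (κ : Multiset ℂ) (l : List ℂ), κ = (l : Multiset ℂ) → ∀ s,
      invGamma κ s = Pool.Agent.N210.FV.gi l s := by
    intro κ l hκ s
    unfold invGamma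
    rw [hκ, Multiset.map_coe, Multiset.prod_coe]
    rfl
  have key := fun (m m' : J → List ℂ) (hm : ∀ j, κ j = (m j : Multiset ℂ))
      (hm' : ∀ j, κ' j = (m' j : Multiset ℂ)) =>
    Pool.Agent.U253.SPL.split_main (W := L) (c := c) (S := S) (x := x) (m := m) (m' := m') (N := N)
      (D := D) (N' := N') (D' := D') (g := g) (B := B) htor
      (fun p hp hpS j => by
        rw [← Multiset.coe_eq_coe]
        have h1 := hun p hp hpS j
        rw [coe_map, coe_map (W j) (eigenvalue (x p))] at h1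
        exact h1)
      (fun j => by
        obtain ⟨⟨a1, a2, a3, a4, a5⟩, -⟩ := hND j
        refine ⟨a1, a2, a3, a4, fun s hs => ?_⟩
        simpa only [hfac] using a5 s hs)
      (fun j => by
        obtain ⟨-, ⟨a1, a2, a3, a4, a5⟩, -⟩ := hND j
        refine ⟨a1, a2, a3, a4, fun s hs => ?_⟩
        simpa only [hfac'] using a5 s hs)
      (fun j => by
        obtain ⟨l, l', n, n', q, ε, hq, hε, b1, b2, b3, b4, hfe⟩ := (hND j).2.2
        refine ⟨l, l', n, n', q, ε, hq, hε, b1, b2, b3, b4, fun s => ?_⟩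
        have h1 := hfe s
        rw [hgi _ _ (hm' j), hgi _ _ (hm j)] at h1
        exact h1) hg hs
      (fun p hp hpS => by
        rcases h p hp hpS with ⟨h1, h2⟩ | h1
        · left
          refine ⟨fun j μ hμ => h1 j μ ((hmem j μ).1 hμ), ?_⟩
          unfold trace at h2
          simp only [pow_one, coe_map, Multiset.sum_coe] at h2
          exact h2
        · right
          exact fun j μ hμ => h1 j μ ((hmem j μ).1 hμ))
      (by
        intro a ⟨i, j, μ, hμ, μ', hμ', hne⟩ i' μ₁ hμ₁ hmax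
        exact hc a ⟨i, j, μ, (hmem i μ).1 hμ, μ', (hmem j μ').1 hμ', hne⟩ i' μ₁ ((hmem i' μ₁).1 hμ₁)
          fun i₂ μ₂ hμ₂ => hmax i₂ μ₂ ((hmem i₂ μ₂).2 hμ₂))
  obtain ⟨h1, h2, -⟩ := key (fun j => (κ j).toList) (fun j => (κ' j).toList)
    (fun j => (Multiset.coe_toList _).symm) (fun j => (Multiset.coe_toList _).symm)
  refine ⟨?_, fun p hp hpS => ⟨fun n hn => ?_, ?_⟩, fun ν ε hν => ?_⟩
  · simpa only [hLdef, Multiset.length_toList] using h2
  · have h3 := (h1 p hp hpS).1 (n - 1)
    rw [Nat.sub_add_cancel hn] at h3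
    unfold trace
    simp only [coe_map, Multiset.sum_coe]
    exact h3
  · obtain ⟨n, hn, z, hz, h3⟩ := (h1 p hp hpS).2
    exact ⟨n, hn, z, hz, fun j μ hμ => h3 j μ ((hmem j μ).2 hμ)⟩
  · obtain ⟨-, -, h3⟩ := key
      (fun j => (L j).map fun μ => Pool.Agent.U253.SPL.dc ν μ + (((Pool.Agent.U253.SPL.dt ε μ) % 2 : ℤ) : ℂ))
      (fun j => (L j).map fun μ => -Pool.Agent.U253.SPL.dc ν μ + (((Pool.Agent.U253.SPL.dt ε μ) % 2 : ℤ) : ℂ))
      (fun j => by
        rw [(hν j).1]
        unfold archimedean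
        rw [coe_map]
        rfl)
      (fun j => by
        rw [(hν j).2.1]
        unfold archimedean dual
        rw [Multiset.map_map, coe_map]
        congr 1
        refine List.map_congr_left fun μ _ => ?_
        rw [Function.comp_apply]
        congr 1
        · unfold exponent Pool.Agent.U253.SPL.dc
          rw [← Finset.sum_neg_distrib]
          exact Finset.sum_congr rfl fun k _ => by rw [Pi.neg_apply]; push_cast; ring
        · congr 1
          have e1 : ∑ k, ε k * (-μ) k = -Pool.Agent.U253.SPL.dt ε μ := by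
            unfold Pool.Agent.U253.SPL.dt
            rw [← Finset.sum_neg_distrib]
            exact Finset.sum_congr rfl fun k _ => by rw [Pi.neg_apply]; ring
          rw [e1, Int.neg_emod_two])
    have h4 := h3 ν ε (fun j => rfl) (fun j => rfl)
    have h5 : ∀ i j, ∀ μ ∈ W i, ∀ μ' ∈ W j, exponent ν μ = exponent ν μ' := fun i j μ hμ μ' hμ' =>
      h4 i j μ ((hmem i μ).2 hμ) μ' ((hmem j μ').2 hμ')
    by_cases hne : ∃ i, ∃ μ, μ ∈ W i
    · obtain ⟨i, μ, hμ⟩ := hne
      refine ⟨exponent ν μ, ?_, fun j μ' hμ' => h5 j i μ' hμ' μ hμ⟩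
      have h6 : (starRingEnd ℂ) (exponent ν μ) ∈ (W i).map fun μ => -exponent ν μ := by
        rw [← (hν i).2.2]
        exact Multiset.mem_map_of_mem _ hμ
      obtain ⟨μ', hμ', h7⟩ := Multiset.mem_map.1 h6
      rw [h5 i i μ' hμ' μ hμ] at h7
      have h8 := congrArg Complex.re h7
      rw [Complex.neg_re, Complex.conj_re] at h8
      linarith
    · push Not at hne
      exact ⟨0, rfl, fun j μ hμ => absurd hμ (hne j μ)⟩

end Pool.Agent.Results.MP_08cfa9_nt.SplitGroups
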