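import Pool.Agent.U253.NFD.Face

/-!
# Temperedness is inherited through one relation between Hecke eigenvalues, at all unramified places and at infinity

Let `K` be a number field, `G` and `G'` connected reductive groups over `K`, `π` and `π'` automorphic representations of `G(𝔸_K)`
and `G'(𝔸_K)` with unitary local components, unramified above the primes `p` outside a finite set `S`; the archimedean
components are ARBITRARY. Let `ρ_j` (`j ∈ J`), `ρ'_i` (`i ∈ I`) be finitely many representations of the L-groups of `G` and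
`G'`, `W j`, `U i` the multisets of weights of their restrictions to the maximal tori of the dual groups. Let `α j v` and `β i v` be
the eigenvalues of `ρ_j` and `ρ'_i` at the Satake parameters of `π_v`, `π'_v`, and `lam`, `lam'` the exponents of the Langlands
parameters of `π_∞`, `π'_∞`. All `L_S(s, π, ρ_j)`, `L_S(s, π', ρ'_i)` and their duals are supposed to have a continuation and functional
equation.

Suppose that the ONE relation `∑_j c_j tr ρ_j(π_v) = ∑_i d_i tr ρ'_i(π'_v)` with real coefficients holds on average, i.e. up to an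
error `g(p)` with `∑_{p < X} g(p) log p = o(√X)`, for the places of degree `1` (the eigenvalues being bounded, or only bounded by
`g(p)^{deg v}` above exceptional primes). Then

1. it holds EXACTLY above every single `p ∉ S`, and for all powers of the parameters;
2. let for every real `a ≠ 0` the extreme weights, i.e. those with maximal `|a · μ|`, have a positive total coefficient (for
   instance `c_j > 0` if the weights of `ρ_j` reach the boundary of the convex hull of all the weights and their negatives). For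
   every `p ∉ S` and every `R ≥ 1`: if all `|b| ≤ R^{deg v}` for the eigenvalues `b ∈ β i v` with `d_i > 0`, `v ∣ p`, then
   `R^{-deg v} ≤ |a| ≤ R^{deg v}` for all the eigenvalues `a` of `π_v`, `v ∣ p`. For `R = 1`: **if `π'` is tempered above `p`, then so is
   `π`**. No hypothesis is needed if all `d_i ≤ 0`. In the same way, if all the exponents of `π'_∞` are imaginary, so are those of `π_∞`;
3. if all `c_j ≥ 0`, then every eigenvalue of the `ρ_j(π_v)` with `c_j > 0` is one of the `ρ'_i(π'_w)`, `w` above the same `p` (up to the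
   degrees), and every exponent of `ρ_j(π_∞)` is one of `ρ'_i(π'_∞)` up to sign, for some `i` with `d_i > 0`.
-/

set_option autoImplicit false

open Filter Topology Asymptotics NumberField

namespace Pool.Agent.Results.MP_08cfa9_nt.TransferOfTemperedness

/-- `∏_{m ∈ κ} Γ_ℝ(s + m)⁻¹`, `Γ_ℝ(s) = π^{-s/2} Γ(s/2)` -/
noncomputable def invGamma (κ : Multiset ℂ) (s : ℂ) : ℂ :=
  (κ.map fun m => (Complex.Gammaℝ (s + m))⁻¹).prod

/-- `∏_{(p, b) ∈ l} (1 - b p^{-s})` -/
noncomputable def finEuler (l : List (ℕ × ℂ)) (s : ℂ) : ℂ :=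
  (l.map fun x => 1 - x.2 * (x.1 : ℂ) ^ (-s)).prod

/-- the places of `K` above the rational prime `p`: the prime ideals `v` of `𝓞 K` which contain `p` -/
noncomputable def places (K : Type) [Field K] [NumberField K] (p : ℕ) : Finset (Ideal (𝓞 K)) :=
  IsDedekindDomain.primesOverFinset (Ideal.span {(p : ℤ)}) (𝓞 K)

/-- the residue degree of the place `v` above `p`: `N(v) = p^{degree p v}` -/
noncomputable def degree {K : Type} [Field K] [NumberField K] (p : ℕ) (v : Ideal (𝓞 K)) : ℕ :=
  (Ideal.span {(p : ℤ)}).inertiaDeg' v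

/-- the value `x^μ = ∏_k x_k^{μ_k}` of the weight `μ` at the point `x` of the torus -/
noncomputable def eigenvalue {r : ℕ} (x : Fin r → ℂ) (μ : Fin r → ℤ) : ℂ := ∏ k, x k ^ μ k

/-- the parameters of the dual representation -/
noncomputable def dual {A : Type} (α : A → Multiset ℂ) : A → Multiset ℂ := fun v => (α v).map fun a => a⁻¹

/-- the product `∏_{v ∣ p} ∏_{a ∈ α v} (1 - a N(v)^{-s})⁻¹` of the Euler factors above `p` -/
noncomputable def eulerFactor (K : Type) [Field K] [NumberField K] (α : Ideal (𝓞 K) → Multiset ℂ)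
    (p : ℕ) (s : ℂ) : ℂ :=
  ∏ v ∈ places K p, ((α v).map fun a => (1 - a * (Ideal.absNorm v : ℂ) ^ (-s))⁻¹).prod

/-- the trace `∑_j c_j ∑_{a ∈ α_j v} a^n` of the `n`-th powers -/
noncomputable def trace {J A : Type} [Fintype J] (c : J → ℝ) (α : J → A → Multiset ℂ) (v : A) (n : ℕ) : ℂ :=
  ∑ j, (c j : ℂ) * ((α j v).map fun a => a ^ n).sum

/-- the Euler product `∏_{p ∉ S} F p s` extends to the meromorphic function `N/D` on `ℂ` -/
structure Continuation (S : Finset ℕ) (F : ℕ → ℂ → ℂ) (N D : ℂ → ℂ) : Prop where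
  /-- `N` is entire -/
  entire_N : Differentiable ℂ N
  /-- `D` is entire -/
  entire_D : Differentiable ℂ D
  /-- `N` and `D` are of order at most `3/2` -/
  order : ∃ C : ℝ, ∀ s, ‖N s‖ ≤ Real.exp (C * (1 + ‖s‖) ^ (3 / 2 : ℝ)) ∧
    ‖D s‖ ≤ Real.exp (C * (1 + ‖s‖) ^ (3 / 2 : ℝ))
  /-- `D` has no zeros in `Re s > 1` -/
  ne_zero : ∀ s : ℂ, 1 < s.re → D s ≠ 0
  /-- the partial Euler products converge to `N/D` in `Re s > 1` -/
  euler : ∀ s : ℂ, 1 < s.re → Tendsto (fun X : ℕ =>
    ∏ p ∈ (Finset.range X).filter (fun p => p.Prime ∧ p ∉ S), F p s) atTop (𝓝 (N s / D s))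

/-- the functional equation between `N/D`, with the archimedean parameters `κ`, and the L-function `N'/D'` of the
dual representation, with the archimedean parameters `κ'`: with
`Λ(s) = q^s · (invGamma κ s · finEuler m s)⁻¹ · finEuler l' s · N s / D s` and
`Λ'(s) = q^s · (invGamma κ' s · finEuler l s)⁻¹ · finEuler m' s · N' s / D' s` it says `Λ(s) = ε Λ'(1 - s)`; the finite products are
the Euler factors above `S` -/
def FunctionalEquation (S : Finset ℕ) (κ κ' : Multiset ℂ) (N D N' D' : ℂ → ℂ) : Prop :=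
  ∃ (l l' m m' : List (ℕ × ℂ)) (q : ℝ) (ε : ℂ), 0 < q ∧ ε ≠ 0 ∧
    (∀ x ∈ l, x.1.Prime ∧ x.1 ∈ S) ∧ (∀ x ∈ l', x.1.Prime ∧ x.1 ∈ S) ∧
    (∀ x ∈ m, x.1.Prime ∧ x.1 ∈ S) ∧ (∀ x ∈ m', x.1.Prime ∧ x.1 ∈ S) ∧
    ∀ s, (q : ℂ) ^ s * invGamma κ' (1 - s) * finEuler l (1 - s) * finEuler l' s * (N s * D' (1 - s)) =
      ε * (q : ℂ) ^ (1 - s) * invGamma κ s * finEuler m s * finEuler m' (1 - s) * (N' (1 - s) * D s)

/-- the exponent of `z` in the weight `μ` of the Langlands parameter at the embedding `τ`: on `ℂˣ` the parameter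
at `τ` is `z ↦ z^{lam τ} z̄^{lam τ̄}` in the dual torus -/
noncomputable def pairing {K : Type} [Field K] {r : ℕ} (lam : (K →+* ℂ) → Fin r → ℂ)
    (q : (K →+* ℂ) × (Fin r → ℤ)) : ℂ :=
  ∑ k, (q.2 k : ℂ) * lam q.1 k

/-- the pairs `(τ, μ)`, `τ` an embedding of `K` in `ℂ`, `μ` a weight of `ρ`, with multiplicity: the weights of the representation
of `ℂˣ` on the restriction of scalars to `ℚ` -/
noncomputable def pairs (K : Type) [Field K] [NumberField K] {r : ℕ} (W : Multiset (Fin r → ℤ)) :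
    Multiset ((K →+* ℂ) × (Fin r → ℤ)) :=
  (Finset.univ : Finset (K →+* ℂ)).val ×ˢ W

/-- the gamma factors of the `ρ_j` are those of Langlands parameters with the exponents `lam τ`, `τ` the embeddings of `K`:
complex conjugation acts on the pairs `(τ, μ)` (on `(τ, μ)`, `τ` complex, by `(τ̄, μ)`; on `(τ, μ)`, `τ` real, by an
involution of the weights). The pairs of `ρ_j` are those of a multiset `F` (weight vectors at real `τ` fixed up to sign) and
the orbits `q, θ q`, `q ∈ Q`; an element of `F` has the factor `Γ_ℝ(s + pairing + δ)`, `δ ∈ {0, 1}`, and an orbit, with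
`pairing q - pairing (θ q) = k ≥ 0`, has the factor `Γ_ℂ(s + pairing q)`, i.e. the shifts `pairing q` and `pairing q + 1`; in the dual
representation these are `Γ_ℝ(s - pairing + δ)` and `Γ_ℂ(s - pairing (θ q))` -/
def HarishChandra (K : Type) [Field K] [NumberField K] {J : Type} {r : ℕ}
    (W : J → Multiset (Fin r → ℤ)) (κ κ' : J → Multiset ℂ) (lam : (K →+* ℂ) → Fin r → ℂ) : Prop :=
  ∃ θ : (K →+* ℂ) × (Fin r → ℤ) → (K →+* ℂ) × (Fin r → ℤ), ∀ j,
    ∃ (F : Multiset (((K →+* ℂ) × (Fin r → ℤ)) × Bool)) (Q : Multiset ((K →+* ℂ) × (Fin r → ℤ))),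
    pairs K (W j) = F.map Prod.fst + Q + Q.map θ ∧
    (∀ q ∈ Q, ∃ k : ℕ, pairing lam q = pairing lam (θ q) + k) ∧
    κ j = F.map (fun q => pairing lam q.1 + if q.2 then 1 else 0) + Q.map (pairing lam) +
      Q.map (fun q => pairing lam q + 1) ∧
    κ' j = F.map (fun q => -pairing lam q.1 + if q.2 then 1 else 0) +
      Q.map (fun q => -pairing lam (θ q)) + Q.map (fun q => -pairing lam (θ q) + 1)

/-- the properties of `π` which are used; `W j` are the weights of `ρ_j`, `α j v` the eigenvalues of `ρ_j` at the Satake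
parameter of `π_v`, `lam` the exponents of `π_∞` -/
structure Automorphic (K : Type) [Field K] [NumberField K] {J : Type} {r : ℕ}
    (W : J → Multiset (Fin r → ℤ)) (S : Finset ℕ) (α : J → Ideal (𝓞 K) → Multiset ℂ)
    (lam : (K →+* ℂ) → Fin r → ℂ) : Prop where
  /-- some power of the Satake parameter (an element of the L-group) is conjugate to an element `x` of the dual torus -/
  satake : ∀ p : ℕ, p.Prime → p ∉ S → ∀ v ∈ places K p, ∃ h : ℕ, 0 < h ∧ ∃ x : Fin r → ℂ, (∀ k, x k ≠ 0) ∧
    ∀ j, (α j v).map (fun a => a ^ h) = (W j).map (eigenvalue x)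
  /-- `π_v` is unitary: the eigenvalues and their conjugate inverses agree as multisets -/
  unitary : ∀ p : ℕ, p.Prime → p ∉ S → ∀ v ∈ places K p, ∀ j,
    (α j v).map (fun a => ((starRingEnd ℂ) a)⁻¹) = α j v
  /-- the L-functions of the `ρ_j` and their duals continue and have the functional equation, with the gamma factors
  given by Langlands parameters with the exponents `lam` -/
  nice : ∃ (κ κ' : J → Multiset ℂ) (N D N' D' : J → ℂ → ℂ), HarishChandra K W κ κ' lam ∧
    ∀ j, Continuation S (eulerFactor K (α j)) (N j) (D j) ∧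
      Continuation S (eulerFactor K (dual (α j))) (N' j) (D' j) ∧
      FunctionalEquation S (κ j) (κ' j) (N j) (D j) (N' j) (D' j)

/-- for every real direction `a`, the extreme weights (those for which `|a · μ|` has the maximal value `M > 0`) have a
positive total coefficient -/
def PositiveOnFaces {J : Type} [Fintype J] {r : ℕ} (W : J → Multiset (Fin r → ℤ)) (c : J → ℝ) : Prop :=
  ∀ (a : Fin r → ℝ) (M : ℝ), 0 < M → (∀ j, ∀ μ ∈ W j, |∑ k, a k * (μ k : ℝ)| ≤ M) →
    (∃ j, ∃ μ ∈ W j, |∑ k, a k * (μ k : ℝ)| = M) →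
    0 < ∑ j, c j * (((W j).map fun μ => |∑ k, a k * (μ k : ℝ)|).count M : ℝ)

theorem coe_map {α β : Type*} (W : Multiset α) (f : α → β) :
    W.map f = ((W.toList.map f : List β) : Multiset β) := by
  rw [← Multiset.map_coe, Multiset.coe_toList]

/-- the symmetric form of the gamma factors -/
theorem gamma_sym {K : Type} [Field K] [NumberField K] {J : Type} {r : ℕ}
    {W : J → Multiset (Fin r → ℤ)} {κ κ' : J → Multiset ℂ} {lam : (K →+* ℂ) → Fin r → ℂ}
    (h : HarishChandra K W κ κ' lam) (j : J) (z : ℂ) :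
    ((κ j).map (Pool.Agent.U253.SPL.con z)).sum + ((κ' j).map (Pool.Agent.U253.SPL.con z)).sum =
      ((pairs K (W j)).map fun q => Pool.Agent.U253.SPL.Tc z (pairing lam q)).sum := by
  obtain ⟨θ, hθ⟩ := h
  obtain ⟨F, Q, hW, -, h1, h2⟩ := hθ j
  rw [hW, h1, h2]
  simp only [Multiset.map_add, Multiset.sum_add, Multiset.map_map, Function.comp_def]
  have e1 : (F.map fun q => Pool.Agent.U253.SPL.con z (pairing lam q.1 + if q.2 then 1 else 0)).sum +
      (F.map fun q => Pool.Agent.U253.SPL.con z (-pairing lam q.1 + if q.2 then 1 else 0)).sum =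
      (F.map fun q => Pool.Agent.U253.SPL.Tc z (pairing lam q.1)).sum := by
    rw [← Multiset.sum_map_add]
    congr 1
    refine Multiset.map_congr rfl fun q _ => ?_
    have h3 := Pool.Agent.U253.SPL.con_real z (pairing lam q.1) (if q.2 then 1 else 0)
    have e : ((((if q.2 = true then (1 : ℤ) else 0) % 2 : ℤ)) : ℂ) = if q.2 = true then 1 else 0 := by
      split_ifs <;> norm_num
    rw [e] at h3
    exact h3
  have e2 : (Q.map fun q => Pool.Agent.U253.SPL.con z (pairing lam q)).sum +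
      (Q.map fun q => Pool.Agent.U253.SPL.con z (pairing lam q + 1)).sum =
      (Q.map fun q => Pool.Agent.U253.SPL.Tc z (pairing lam q)).sum := by
    rw [← Multiset.sum_map_add]
    congr 1
    exact Multiset.map_congr rfl fun q _ => Pool.Agent.U253.SPL.con_pair z (pairing lam q)
  have e3 : (Q.map fun q => Pool.Agent.U253.SPL.con z (-pairing lam (θ q))).sum +
      (Q.map fun q => Pool.Agent.U253.SPL.con z (-pairing lam (θ q) + 1)).sum =
      (Q.map fun q => Pool.Agent.U253.SPL.Tc z (pairing lam (θ q))).sum := by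
    rw [← Multiset.sum_map_add]
    congr 1
    refine Multiset.map_congr rfl fun q _ => ?_
    rw [Pool.Agent.U253.SPL.con_pair z (-pairing lam (θ q)), Pool.Agent.U253.SPL.Tc_neg]
  rw [← e1, ← e2, ← e3]
  ring

theorem toList_sum {M : Type*} [AddCommMonoid M] (A : Multiset ℂ) (F : ℂ → M) :
    (A.toList.map F).sum = (A.map F).sum := by
  conv_rhs => rw [← Multiset.coe_toList A, Multiset.map_coe, Multiset.sum_coe]

theorem msum_nonneg {α : Type*} {F : α → ℝ} (h0 : ∀ a, 0 ≤ F a) (M : Multiset α) :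
    0 ≤ (M.map F).sum :=
  Multiset.sum_nonneg fun y hy => by
    obtain ⟨a, -, rfl⟩ := Multiset.mem_map.1 hy
    exact h0 a

theorem msum_pos {α : Type*} {F : α → ℝ} (h0 : ∀ a, 0 ≤ F a) {M : Multiset α} {a : α} (ha : a ∈ M)
    (h : 0 < F a) : 0 < (M.map F).sum :=
  lt_of_lt_of_le h (Multiset.single_le_sum (fun y hy => by
    obtain ⟨a, -, rfl⟩ := Multiset.mem_map.1 hy
    exact h0 a) _ (Multiset.mem_map_of_mem F ha))

theorem msum_ex {α : Type*} {F : α → ℝ} {M : Multiset α} (h : (M.map F).sum ≠ 0) :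
    ∃ a ∈ M, F a ≠ 0 := by
  by_contra hcon
  push Not at hcon
  exact h (Multiset.sum_eq_zero fun y hy => by
    obtain ⟨a, ha, rfl⟩ := Multiset.mem_map.1 hy
    exact hcon a ha)

theorem lsum_eq {α : Type*} (F : α → ℝ) (l : List α) : (l.map F).sum = ((l : Multiset α).map F).sum := by
  rw [Multiset.map_coe, Multiset.sum_coe]

theorem lsum_nonneg {α : Type*} {F : α → ℝ} (h0 : ∀ a, 0 ≤ F a) (l : List α) : 0 ≤ (l.map F).sum := by
  rw [lsum_eq]
  exact msum_nonneg h0 _

theorem lsum_pos {α : Type*} {F : α → ℝ} (h0 : ∀ a, 0 ≤ F a) {l : List α} {a : α} (ha : a ∈ l)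
    (h : 0 < F a) : 0 < (l.map F).sum := by
  rw [lsum_eq]
  exact msum_pos h0 (Multiset.mem_coe.2 ha) h

theorem lsum_ex {α : Type*} {F : α → ℝ} {l : List α} (h : (l.map F).sum ≠ 0) : ∃ a ∈ l, F a ≠ 0 := by
  rw [lsum_eq] at h
  obtain ⟨a, ha, h1⟩ := msum_ex h
  exact ⟨a, Multiset.mem_coe.1 ha, h1⟩

theorem ex_pos {I : Type} [Fintype I] {d s : I → ℝ} (h : 0 < ∑ i, d i * s i) (hs : ∀ i, 0 ≤ s i) :
    ∃ i, 0 < d i ∧ s i ≠ 0 := by
  by_contra hcon
  push Not at hcon
  refine absurd h (not_lt.2 (Finset.sum_nonpos fun i _ => ?_))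
  rcases le_or_gt (d i) 0 with h1 | h1
  · exact mul_nonpos_of_nonpos_of_nonneg h1 (hs i)
  · rw [hcon i h1, mul_zero]

theorem ne_zero_of {r h : ℕ} (hh : 0 < h) {x : Fin r → ℂ} (hx : ∀ k, x k ≠ 0) {A : Multiset ℂ}
    {W : Multiset (Fin r → ℤ)} (hA : A.map (fun a => a ^ h) = W.map (eigenvalue x)) :
    ∀ a ∈ A, a ≠ 0 := by
  intro a ha
  have h1 : a ^ h ∈ W.map (eigenvalue x) := by
    rw [← hA]
    exact Multiset.mem_map_of_mem _ ha
  obtain ⟨μ, -, h2⟩ := Multiset.mem_map.1 h1
  intro h0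
  rw [h0, zero_pow hh.ne'] at h2
  exact Finset.prod_ne_zero_iff.2 (fun k _ => zpow_ne_zero (μ k) (hx k)) h2

theorem card_of {r h : ℕ} {x : Fin r → ℂ} {A : Multiset ℂ}
    {W : Multiset (Fin r → ℤ)} (hA : A.map (fun a => a ^ h) = W.map (eigenvalue x)) :
    A.card = W.card := by
  have := congrArg Multiset.card hA
  rwa [Multiset.card_map, Multiset.card_map] at this

/-- **Temperedness is inherited through one relation which holds on average.** -/
theorem result {J I : Type} [Fintype J] [Fintype I] {r r' : ℕ} (K : Type) [Field K] [NumberField K]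
    (W : J → Multiset (Fin r → ℤ)) (U : I → Multiset (Fin r' → ℤ)) (c : J → ℝ) (d : I → ℝ)
    (S : Finset ℕ) (α : J → Ideal (𝓞 K) → Multiset ℂ) (β : I → Ideal (𝓞 K) → Multiset ℂ)
    (lam : (K →+* ℂ) → Fin r → ℂ) (lam' : (K →+* ℂ) → Fin r' → ℂ)
    (hπ : Automorphic K W S α lam) (hπ' : Automorphic K U S β lam')
    (g : ℕ → ℝ) (B : ℝ) (hg : ∀ p, 0 ≤ g p)
    (hs : (fun X : ℕ => ∑ p ∈ (Finset.range X).filter (fun p => p.Prime ∧ p ∉ S),
      g p * Real.log p) =o[atTop] (fun X : ℕ => √(X : ℝ)))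
    (h : ∀ p : ℕ, p.Prime → p ∉ S →
      ((∀ v ∈ places K p, (∀ j, ∀ a ∈ α j v, ‖a‖ ≤ B) ∧ ∀ i, ∀ b ∈ β i v, ‖b‖ ≤ B) ∧
        ‖∑ v ∈ (places K p).filter (fun v => degree p v = 1),
          (trace c α v 1 - trace d β v 1)‖ ≤ g p) ∨
      ∀ v ∈ places K p, (∀ j, ∀ a ∈ α j v, ‖a‖ ≤ g p ^ degree p v) ∧
        ∀ i, ∀ b ∈ β i v, ‖b‖ ≤ g p ^ degree p v) :
    -- the relation is exact at every place, for all powers
    (∀ p : ℕ, p.Prime → p ∉ S → ∀ n : ℕ, 0 < n →
      ∑ v ∈ (places K p).filter (fun v => degree p v ∣ n),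
        (degree p v : ℂ) * (trace c α v (n / degree p v) - trace d β v (n / degree p v)) = 0) ∧
    -- transfer of bounds and of temperedness
    (PositiveOnFaces W c →
      (∀ p : ℕ, p.Prime → p ∉ S → ∀ R : ℝ, 1 ≤ R →
        (∀ v ∈ places K p, ∀ i, 0 < d i → ∀ b ∈ β i v, ‖b‖ ≤ R ^ degree p v) →
        ∀ v ∈ places K p, ∀ j, ∀ a ∈ α j v, (R ^ degree p v)⁻¹ ≤ ‖a‖ ∧ ‖a‖ ≤ R ^ degree p v) ∧
      ∀ R : ℝ, 0 ≤ R →
        (∀ τ : K →+* ℂ, ∀ i, 0 < d i → ∀ ν ∈ U i, |(pairing lam' (τ, ν)).re| ≤ R) →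
        ∀ τ : K →+* ℂ, ∀ j, ∀ μ ∈ W j, |(pairing lam (τ, μ)).re| ≤ R) ∧
    -- nonnegative coefficients: every parameter of `π` is a parameter of `π'`
    ((∀ j, 0 ≤ c j) → ∀ j, 0 < c j →
      (∀ p : ℕ, p.Prime → p ∉ S → ∀ v ∈ places K p, ∀ a ∈ α j v,
        ∃ i, 0 < d i ∧ ∃ w ∈ places K p, ∃ b ∈ β i w, ∃ y : ℂ, y ^ degree p v = a ∧ y ^ degree p w = b) ∧
      ∀ τ : K →+* ℂ, ∀ μ ∈ W j, ∃ i, 0 < d i ∧ ∃ τ' : K →+* ℂ, ∃ ν ∈ U i,
        pairing lam (τ, μ) = pairing lam' (τ', ν) ∨ pairing lam (τ, μ) = -pairing lam' (τ', ν)) := by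
  classical
  obtain ⟨hsat, hun, κ, κ', N, D, N', D', hHC, hND⟩ := hπ
  obtain ⟨hsat', hun', η, η', M, Δ, M', Δ', hHC', hND'⟩ := hπ'
  set f : Ideal (𝓞 K) → ℕ := Pool.Agent.U253.NFD.fdeg K with hfdef
  have hdeg : ∀ p : ℕ, p.Prime → ∀ v ∈ places K p, f v = degree p v :=
    fun p hp v hv => Pool.Agent.U253.NFD.fdeg_eq K hp hv
  have hf : ∀ p : ℕ, p.Prime → p ∉ S → ∀ v ∈ places K p, 0 < f v := by
    intro p hp _ v hv
    rw [hdeg p hp v hv]
    exact ((Pool.Agent.U253.NFD.places_facts K hp).1 v hv).1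
  have hd : ∀ p : ℕ, p.Prime → p ∉ S → ∑ v ∈ places K p, f v ≤ Module.finrank ℚ K := by
    intro p hp _
    rw [Finset.sum_congr rfl fun v hv => hdeg p hp v hv]
    exact (Pool.Agent.U253.NFD.places_facts K hp).2
  have hα0 : ∀ p : ℕ, p.Prime → p ∉ S → ∀ v ∈ places K p, ∀ j, ∀ a ∈ α j v, a ≠ 0 := by
    intro p hp hpS v hv j
    obtain ⟨h, hh, x, hx, hW⟩ := hsat p hp hpS v hv
    exact ne_zero_of hh hx (hW j)
  have hβ0 : ∀ p : ℕ, p.Prime → p ∉ S → ∀ v ∈ places K p, ∀ i, ∀ b ∈ β i v, b ≠ 0 := by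
    intro p hp hpS v hv i
    obtain ⟨h, hh, x, hx, hW⟩ := hsat' p hp hpS v hv
    exact ne_zero_of hh hx (hW i)
  -- both sides together
  set A : J ⊕ I → Ideal (𝓞 K) → Multiset ℂ := Sum.elim α β with hA
  set C : J ⊕ I → ℝ := Sum.elim c fun i => -d i with hC
  set n : J ⊕ I → ℕ := Sum.elim (fun j => (W j).card) fun i => (U i).card with hn
  set E : J ⊕ I → Ideal (𝓞 K) → List ℂ := fun q v => (A q v).toList with hE
  have hA0 : ∀ p : ℕ, p.Prime → p ∉ S → ∀ v ∈ places K p, ∀ q, ∀ a ∈ A q v, a ≠ 0 := by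
    rintro p hp hpS v hv (j | i)
    · exact hα0 p hp hpS v hv j
    · exact hβ0 p hp hpS v hv i
  have hAn : ∀ p : ℕ, p.Prime → p ∉ S → ∀ v ∈ places K p, ∀ q, (E q v).length = n q := by
    rintro p hp hpS v hv (j | i)
    · obtain ⟨h, hh, x, hx, hW⟩ := hsat p hp hpS v hv
      show (α j v).toList.length = (W j).card
      rw [Multiset.length_toList]
      exact card_of (hW j)
    · obtain ⟨h, hh, x, hx, hW⟩ := hsat' p hp hpS v hv
      show (β i v).toList.length = (U i).card
      rw [Multiset.length_toList]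
      exact card_of (hW i)
  have hherm : ∀ p : ℕ, p.Prime → p ∉ S → ∀ v ∈ places K p, ∀ q,
      ((E q v).map fun a => ((starRingEnd ℂ) a)⁻¹).Perm (E q v) := by
    intro p hp hpS v hv q
    have h1 : (A q v).map (fun a => ((starRingEnd ℂ) a)⁻¹) = A q v := by
      rcases q with j | i
      · exact hun p hp hpS v hv j
      · exact hun' p hp hpS v hv i
    rw [← Multiset.coe_eq_coe, ← coe_map, Multiset.coe_toList]
    exact h1
  have hfac : ∀ (q : J ⊕ I) (p : ℕ), p.Prime → ∀ s : ℂ, eulerFactor K (A q) p s =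
      ∏ v ∈ places K p, ((E q v).map fun a => (1 - a * ((p : ℂ) ^ (-s)) ^ f v)⁻¹).prod := by
    intro q p hp s
    unfold eulerFactor
    refine Finset.prod_congr rfl fun v hv => ?_
    rw [coe_map, Multiset.prod_coe]
    congr 1
    refine List.map_congr_left fun a _ => ?_
    rw [← Pool.Agent.U253.NFD.norm_cpow K hp hv s]
  have hfac' : ∀ (q : J ⊕ I) (p : ℕ), p.Prime → ∀ s : ℂ, eulerFactor K (dual (A q)) p s =
      ∏ v ∈ places K p, ((E q v).map fun a => (1 - a⁻¹ * ((p : ℂ) ^ (-s)) ^ f v)⁻¹).prod := by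
    intro q p hp s
    unfold eulerFactor dual
    refine Finset.prod_congr rfl fun v hv => ?_
    rw [Multiset.map_map, coe_map, Multiset.prod_coe]
    congr 1
    refine List.map_congr_left fun a _ => ?_
    rw [Function.comp_apply, ← Pool.Agent.U253.NFD.norm_cpow K hp hv s]
  have hgi : ∀ (κ : Multiset ℂ) (s : ℂ), invGamma κ s = Pool.Agent.N210.FV.gi κ.toList s := by
    intro κ s
    unfold invGamma
    rw [coe_map, Multiset.prod_coe]
    rfl
  set k₁ : J ⊕ I → Multiset ℂ := Sum.elim κ η with hk₁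
  set k₂ : J ⊕ I → Multiset ℂ := Sum.elim κ' η' with hk₂
  set N₁ : J ⊕ I → ℂ → ℂ := Sum.elim N M with hN₁
  set D₁ : J ⊕ I → ℂ → ℂ := Sum.elim D Δ with hD₁
  set N₂ : J ⊕ I → ℂ → ℂ := Sum.elim N' M' with hN₂
  set D₂ : J ⊕ I → ℂ → ℂ := Sum.elim D' Δ' with hD₂
  have hall : ∀ q, Continuation S (eulerFactor K (A q)) (N₁ q) (D₁ q) ∧
      Continuation S (eulerFactor K (dual (A q))) (N₂ q) (D₂ q) ∧
      FunctionalEquation S (k₁ q) (k₂ q) (N₁ q) (D₁ q) (N₂ q) (D₂ q) := by
    rintro (j | i)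
    · exact hND j
    · exact hND' i
  have hbd : ∀ p : ℕ, p.Prime → p ∉ S →
      ((∀ v ∈ places K p, ∀ q, ∀ a ∈ E q v, ‖a‖ ≤ B) ∧
        ‖∑ v ∈ (places K p).filter (fun v => f v = 1), ∑ q, (C q : ℂ) * (E q v).sum‖ ≤ g p) ∨
      ∀ v ∈ places K p, ∀ q, ∀ a ∈ E q v, ‖a‖ ≤ g p ^ f v := by
    intro p hp hpS
    rcases h p hp hpS with ⟨h1, h2⟩ | h1
    · left
      refine ⟨?_, ?_⟩
      · rintro v hv (j | i) a ha
        · exact (h1 v hv).1 j a (Multiset.mem_toList.1 ha)
        · exact (h1 v hv).2 i a (Multiset.mem_toList.1 ha)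
      · refine le_of_eq_of_le ?_ h2
        congr 1
        rw [Finset.filter_congr fun v hv => by rw [hdeg p hp v hv]]
        refine Finset.sum_congr rfl fun v _ => ?_
        rw [Fintype.sum_sum_type]
        unfold trace
        rw [sub_eq_add_neg, ← Finset.sum_neg_distrib]
        congr 1
        · refine Finset.sum_congr rfl fun j _ => ?_
          have h3 := toList_sum (α j v) fun a => a ^ 1
          simp only [pow_one, List.map_id'] at h3
          simp only [pow_one]
          rw [← h3]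
          rfl
        · refine Finset.sum_congr rfl fun i _ => ?_
          have h3 := toList_sum (β i v) fun a => a ^ 1
          simp only [pow_one, List.map_id'] at h3
          simp only [pow_one]
          rw [← h3]
          simp only [hC, hE, hA, Sum.elim_inr]
          push_cast
          ring
    · right
      rintro v hv (j | i) a ha
      · rw [hdeg p hp v hv]
        exact (h1 v hv).1 j a (Multiset.mem_toList.1 ha)
      · rw [hdeg p hp v hv]
        exact (h1 v hv).2 i a (Multiset.mem_toList.1 ha)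
  obtain ⟨hz, harch⟩ := Pool.Agent.U253.NFD.gap_list (n := n) (c := C) (E := E)
    (m := fun q => (k₁ q).toList) (m' := fun q => (k₂ q).toList) (N := N₁) (D := D₁) (N' := N₂)
    (D' := D₂) hf hd hAn hherm (fun q => by
      obtain ⟨⟨a1, a2, a3, a4, a5⟩, -⟩ := hall q
      refine ⟨a1, a2, a3, a4, fun s hs => (a5 s hs).congr fun X => Finset.prod_congr rfl fun p hp => ?_⟩
      exact hfac q p (Finset.mem_filter.1 hp).2.1 s) (fun q => by
      obtain ⟨-, ⟨a1, a2, a3, a4, a5⟩, -⟩ := hall q
      refine ⟨a1, a2, a3, a4, fun s hs => (a5 s hs).congr fun X => Finset.prod_congr rfl fun p hp => ?_⟩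
      exact hfac' q p (Finset.mem_filter.1 hp).2.1 s) (fun q => by
      obtain ⟨l, l', n, n', q', ε, hq, hε, b1, b2, b3, b4, hfe⟩ := (hall q).2.2
      refine ⟨l, l', n, n', q', ε, hq, hε, b1, b2, b3, b4, fun s => ?_⟩
      have h1 := hfe s
      rw [hgi, hgi] at h1
      exact h1) hg hs hbd
  have hE0 : ∀ p : ℕ, p.Prime → p ∉ S → ∀ q, ∀ b ∈ Pool.Agent.U253.NFD.lstE (places K p) f (E q), b ≠ 0 := by
    intro p hp hpS q b hb
    obtain ⟨v, hv, a, ha, hb'⟩ := Pool.Agent.U253.NFD.mem_lstE.1 hb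
    have h1 := Pool.Agent.U253.NFD.blk_pow (hf p hp hpS v hv) hb'
    intro h0
    rw [h0, zero_pow (hf p hp hpS v hv).ne'] at h1
    exact hA0 p hp hpS v hv q a (Multiset.mem_toList.1 ha) h1.symm
  have hG : ∀ p : ℕ, p.Prime → p ∉ S → ∀ G : ℂ → ℝ,
      ∑ j, c j * ((Pool.Agent.U253.NFD.lstE (places K p) f fun v => (α j v).toList).map G).sum =
      ∑ i, d i * ((Pool.Agent.U253.NFD.lstE (places K p) f fun v => (β i v).toList).map G).sum := by
    intro p hp hpS G
    have h1 := Pool.Agent.U253.NFD.list_all (hE0 p hp hpS) (hz p hp hpS) G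
    rw [Fintype.sum_sum_type] at h1
    simp only [hC, hE, hA, Sum.elim_inl, Sum.elim_inr, neg_mul, Finset.sum_neg_distrib] at h1
    linarith
  -- the archimedean relation
  set X : J ⊕ I → List ℂ := Sum.elim (fun j => ((pairs K (W j)).map (pairing lam)).toList)
    fun i => ((pairs K (U i)).map (pairing lam')).toList with hX
  have hinf : ∀ G : ℂ → ℝ,
      ∑ j, c j * ((pairs K (W j)).map fun q => G (pairing lam q) + G (-pairing lam q)).sum =
      ∑ i, d i * ((pairs K (U i)).map fun q => G (pairing lam' q) + G (-pairing lam' q)).sum := by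
    intro G
    have h1 := Pool.Agent.U253.NFD.arch_list (c := C) (X := X) (m := fun q => (k₁ q).toList)
      (m' := fun q => (k₂ q).toList) (fun q z => by
        rw [toList_sum, toList_sum]
        rcases q with j | i
        · rw [show X (Sum.inl j) = ((pairs K (W j)).map (pairing lam)).toList from rfl, toList_sum,
            Multiset.map_map]
          exact gamma_sym hHC j z
        · rw [show X (Sum.inr i) = ((pairs K (U i)).map (pairing lam')).toList from rfl, toList_sum,
            Multiset.map_map]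
          exact gamma_sym hHC' i z) harch G
    rw [Fintype.sum_sum_type] at h1
    simp only [hC, hX, Sum.elim_inl, Sum.elim_inr, neg_mul, Finset.sum_neg_distrib, toList_sum,
      Multiset.map_map] at h1
    exact add_neg_eq_zero.1 h1
  refine ⟨fun p hp hpS n hn => ?_, fun hc => ⟨fun p hp hpS R hR hb => ?_, fun R hR hb => ?_⟩,
    fun hc0 j hcj => ⟨fun p hp hpS v hv a ha => ?_, fun τ μ hμ => ?_⟩⟩
  · have h1 := Pool.Agent.U253.NFD.pow_rel (hf p hp hpS) (hz p hp hpS) hn
    have e : (places K p).filter (fun v => degree p v ∣ n) = (places K p).filter (fun v => f v ∣ n) :=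
      Finset.filter_congr fun v hv => by rw [hdeg p hp v hv]
    rw [← h1, e]
    refine Finset.sum_congr rfl fun v hv => ?_
    rw [hdeg p hp v (Finset.mem_filter.1 hv).1, Fintype.sum_sum_type]
    unfold trace
    rw [sub_eq_add_neg, ← Finset.sum_neg_distrib]
    congr 2
    · refine Finset.sum_congr rfl fun j _ => ?_
      rw [← toList_sum]
      rfl
    · refine Finset.sum_congr rfl fun i _ => ?_
      rw [← toList_sum]
      simp only [hC, hE, hA, Sum.elim_inr]
      push_cast
      ring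
  · have hR0 : 0 < R := lt_of_lt_of_le one_pos hR
    have hfR : ∀ v ∈ places K p, (0 : ℝ) < f v := fun v hv => by exact_mod_cast hf p hp hpS v hv
    have hlev : ∀ t : ℝ,
        ∑ v ∈ places K p, (f v : ℝ) * ∑ j, c j * (((α j v).map fun a => |Real.log ‖a‖ / f v|).count t : ℝ) =
        ∑ v ∈ places K p, (f v : ℝ) * ∑ i, d i * (((β i v).map fun b => |Real.log ‖b‖ / f v|).count t : ℝ) := by
      intro t
      rw [← Pool.Agent.U253.NFD.level_sum (hf p hp hpS) α t,
        ← Pool.Agent.U253.NFD.level_sum (hf p hp hpS) β t]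
      exact hG p hp hpS _
    have h1 := Pool.Agent.U253.NFD.fin_transfer hc (hf p hp hpS) (α := α) (β := β) (hsat p hp hpS) hlev
      (Real.log_nonneg hR) (fun v hv i hi b hb' => by
        have hfv := hfR v hv
        have up : ∀ z ∈ β i v, Real.log ‖z‖ / f v ≤ Real.log R := by
          intro z hz'
          rw [div_le_iff₀ hfv, mul_comm, ← Real.log_pow]
          refine Real.log_le_log (norm_pos_iff.2 (hβ0 p hp hpS v hv i z hz')) ?_
          rw [hdeg p hp v hv]
          exact hb v hv i hi z hz'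
        rw [abs_le]
        refine ⟨?_, up b hb'⟩
        have h2 : ((starRingEnd ℂ) b)⁻¹ ∈ β i v := by
          rw [← hun' p hp hpS v hv i]
          exact Multiset.mem_map_of_mem _ hb'
        have h3 := up _ h2
        rw [norm_inv, Complex.norm_conj, Real.log_inv, neg_div] at h3
        linarith)
    intro v hv j a ha
    have h2 := h1 v hv j a ha
    have hfv := hfR v hv
    have ha0 := norm_pos_iff.2 (hα0 p hp hpS v hv j a ha)
    rw [abs_le, le_div_iff₀ hfv, div_le_iff₀ hfv] at h2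
    rw [← hdeg p hp v hv]
    constructor
    · rw [← Real.log_le_log_iff (inv_pos.2 (pow_pos hR0 _)) ha0, Real.log_inv, Real.log_pow]
      linarith [h2.1]
    · rw [← Real.log_le_log_iff ha0 (pow_pos hR0 _), Real.log_pow]
      linarith [h2.2]
  · -- infinity
    have hcount : ∀ {r₀ : ℕ} (ℓ : (K →+* ℂ) → Fin r₀ → ℂ) (L : Multiset (Fin r₀ → ℤ)) (t : ℝ),
        ((pairs K L).map fun q => (if |(pairing ℓ q).re| = t then (1 : ℝ) else 0) +
          if |(-pairing ℓ q).re| = t then 1 else 0).sum =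
        ∑ τ, 2 * ((L.map fun μ => |∑ k, (ℓ τ k).re * (μ k : ℝ)|).count t : ℝ) := by
      intro r₀ ℓ L t
      have e : pairs K L = (Finset.univ : Finset (K →+* ℂ)).val.bind fun τ => L.map (Prod.mk τ) := rfl
      rw [e, Multiset.map_bind, Multiset.sum_bind]
      show ∑ τ, _ = _
      refine Finset.sum_congr rfl fun τ _ => ?_
      rw [Multiset.map_map, Pool.Agent.U253.NFD.count_sum, ← Multiset.sum_map_mul_left]
      congr 1
      refine Multiset.map_congr rfl fun μ _ => ?_
      have e1 : (pairing ℓ (τ, μ)).re = ∑ k, (ℓ τ k).re * (μ k : ℝ) := by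
        unfold pairing
        rw [Complex.re_sum]
        refine Finset.sum_congr rfl fun k _ => ?_
        rw [Complex.mul_re, Complex.intCast_re, Complex.intCast_im]
        ring
      rw [Function.comp_apply, Complex.neg_re, abs_neg, e1]
      ring
    have h1 := Pool.Agent.U253.NFD.faces_le hc (P := (Finset.univ : Finset (K →+* ℂ)))
      (w := fun _ => 1) (fun _ _ => one_pos) (a := fun τ k => (lam τ k).re) hR fun t ht => by
        have h2 := hinf fun z => if |z.re| = t then (1 : ℝ) else 0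
        simp only [hcount] at h2
        have h3 : ∀ {Q : Type} [Fintype Q] (e : Q → ℝ) (y : Q → (K →+* ℂ) → ℝ),
            ∑ q, e q * ∑ τ, 2 * y q τ = 2 * ∑ τ, 1 * ∑ q, e q * y q τ := by
          intro Q _ e y
          simp only [one_mul]
          rw [Finset.mul_sum, Finset.sum_congr rfl fun q _ => Finset.mul_sum _ _ _, Finset.sum_comm]
          refine Finset.sum_congr rfl fun τ _ => ?_
          rw [Finset.mul_sum]
          exact Finset.sum_congr rfl fun q _ => by ring
        rw [h3, h3] at h2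
        have h4 := Pool.Agent.U253.NFD.right_le (d := d) (P := (Finset.univ : Finset (K →+* ℂ)))
          (w := fun _ => (1 : ℝ)) (fun _ _ => zero_le_one)
          (L := fun i τ => (U i).map fun ν => |∑ k, (lam' τ k).re * (ν k : ℝ)|) ht
          (fun i hi τ _ s hs' => by
            obtain ⟨ν, hν, rfl⟩ := Multiset.mem_map.1 hs'
            have h5 := hb τ i hi ν hν
            have e1 : (pairing lam' (τ, ν)).re = ∑ k, (lam' τ k).re * (ν k : ℝ) := by
              unfold pairing
              rw [Complex.re_sum]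
              refine Finset.sum_congr rfl fun k _ => ?_
              rw [Complex.mul_re, Complex.intCast_re, Complex.intCast_im]
              ring
            rw [e1] at h5
            exact h5)
        linarith
    intro τ j μ hμ
    have h2 := h1 τ (Finset.mem_univ _) j μ hμ
    have e1 : (pairing lam (τ, μ)).re = ∑ k, (lam τ k).re * (μ k : ℝ) := by
      unfold pairing
      rw [Complex.re_sum]
      refine Finset.sum_congr rfl fun k _ => ?_
      rw [Complex.mul_re, Complex.intCast_re, Complex.intCast_im]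
      ring
    rw [e1]
    exact h2
  · -- nonnegative coefficients, finite places
    obtain ⟨y, hy⟩ : ∃ y, y ∈ Pool.Agent.U253.NFD.blk (f v) a := by
      refine List.exists_mem_of_length_pos ?_
      rw [Pool.Agent.U253.NFD.blk_len (hf p hp hpS v hv)]
      exact hf p hp hpS v hv
    set G : ℂ → ℝ := fun b => if b = y then (1 : ℝ) else 0 with hGdef
    have hG0 : ∀ b, 0 ≤ G b := fun b => by
      simp only [hGdef]
      split_ifs <;> norm_num
    have h1 := hG p hp hpS G
    have h2 : 0 < ∑ j, c j *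
        ((Pool.Agent.U253.NFD.lstE (places K p) f fun v => (α j v).toList).map G).sum := by
      refine Finset.sum_pos' (fun j' _ => mul_nonneg (hc0 j') (lsum_nonneg hG0 _))
        ⟨j, Finset.mem_univ _, mul_pos hcj ?_⟩
      refine lsum_pos hG0 (a := y) (Pool.Agent.U253.NFD.mem_lstE.2 ⟨v, hv, a, Multiset.mem_toList.2 ha, hy⟩) ?_
      simp [hGdef]
    rw [h1] at h2
    obtain ⟨i, hi, h3⟩ := ex_pos h2 fun i => lsum_nonneg hG0 _
    obtain ⟨b', hb', h4⟩ := lsum_ex h3
    obtain ⟨w, hw, b, hb, hbb⟩ := Pool.Agent.U253.NFD.mem_lstE.1 hb'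
    have h5 : b' = y := by
      by_contra h6
      exact h4 (by simp only [hGdef]; rw [if_neg h6])
    refine ⟨i, hi, w, hw, b, Multiset.mem_toList.1 hb, y, ?_, ?_⟩
    · rw [← hdeg p hp v hv]
      exact Pool.Agent.U253.NFD.blk_pow (hf p hp hpS v hv) hy
    · rw [← hdeg p hp w hw, ← h5]
      exact Pool.Agent.U253.NFD.blk_pow (hf p hp hpS w hw) hbb
  · -- nonnegative coefficients, infinity
    set e₀ : ℂ := pairing lam (τ, μ) with he₀
    set G : ℂ → ℝ := fun b => if b = e₀ then (1 : ℝ) else 0 with hGdef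
    have hG0 : ∀ b, 0 ≤ G b := fun b => by
      simp only [hGdef]
      split_ifs <;> norm_num
    have h1 := hinf G
    have h2 : 0 < ∑ j, c j * ((pairs K (W j)).map fun q => G (pairing lam q) + G (-pairing lam q)).sum := by
      refine Finset.sum_pos' (fun j' _ => mul_nonneg (hc0 j')
        (msum_nonneg (fun q => add_nonneg (hG0 _) (hG0 _)) _)) ⟨j, Finset.mem_univ _, mul_pos hcj ?_⟩
      refine msum_pos (fun q => add_nonneg (hG0 _) (hG0 _)) (a := (τ, μ)) ?_ ?_
      · exact Multiset.mem_product.2 ⟨Finset.mem_univ _, hμ⟩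
      · have : G (pairing lam (τ, μ)) = 1 := by simp [hGdef, he₀]
        rw [this]
        have := hG0 (-pairing lam (τ, μ))
        linarith
    rw [h1] at h2
    obtain ⟨i, hi, h3⟩ := ex_pos h2 fun i => msum_nonneg (fun q => add_nonneg (hG0 _) (hG0 _)) _
    obtain ⟨⟨τ', ν⟩, hq, h4⟩ := msum_ex h3
    refine ⟨i, hi, τ', ν, (Multiset.mem_product.1 hq).2, ?_⟩
    by_contra h5
    rw [not_or] at h5
    apply h4
    have h6 : pairing lam' (τ', ν) ≠ e₀ := fun h7 => h5.1 h7.symm
    have h7 : -pairing lam' (τ', ν) ≠ e₀ := fun h8 => h5.2 h8.symm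
    simp only [hGdef]
    rw [if_neg h6, if_neg h7, add_zero]

end Pool.Agent.Results.MP_08cfa9_nt.TransferOfTemperedness
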